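import Pool.Agent.N874.PP.Lat
import Pool.Agent.TH115.SD.Hensel

/-!
Project PP (helper874), parts UNIM and RAM (helper765): general lemmas on the primes over an
irreducible polynomial, weak approximation, integrality away from the other primes.
-/

set_option autoImplicit false
set_option linter.all false

open Polynomial IsDedekindDomain
open scoped Classical

namespace Pool.Agent.N765.PP

open Pool.Agent.N874.PP

/-! ### Weak approximation -/

section WA

variable {O L : Type} [CommRing O] [IsDedekindDomain O] [Field L] [Algebra O L] [IsFractionRing O L]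

theorem weak (T : Finset (HeightOneSpectrum O)) (y : HeightOneSpectrum O → L)
    (hy : ∀ v ∈ T, y v ≠ 0) : ∃ g : L, g ≠ 0 ∧ ∀ v ∈ T, v.valuation L g = v.valuation L (y v) := by
  rcases T.eq_empty_or_nonempty with rfl | hT
  · exact ⟨1, one_ne_zero, by simp⟩
  obtain ⟨d, hd⟩ := IsLocalization.exist_integer_multiples (nonZeroDivisors O) T y
  have hd0 : algebraMap O L d ≠ 0 := IsLocalization.to_map_ne_zero_of_mem_nonZeroDivisors L le_rfl d.2
  choose z hz using hd
  have hz' : ∀ v : T, algebraMap O L (z v v.2) = algebraMap O L d * y v := fun v => by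
    rw [hz v v.2, ← Algebra.smul_def]
  have hz0 : ∀ v : T, z v v.2 ≠ 0 := fun v h => by
    have := hz' v
    rw [h, map_zero] at this
    rcases mul_eq_zero.1 this.symm with h1 | h1
    · exact hd0 h1
    · exact hy v v.2 h1
  have hn : ∀ v : HeightOneSpectrum O, ∃ n : ℕ, ∀ hv : v ∈ T, WithZero.exp (-(n : ℤ)) <
      v.intValuation (z v hv) := by
    intro v
    by_cases hv : v ∈ T
    · obtain ⟨n, hn⟩ := WithZero.exists_exp_neg_natCast_lt
        (v.intValuation_ne_zero (z v hv) (hz0 ⟨v, hv⟩))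
      exact ⟨n, fun _ => hn⟩
    · exact ⟨0, fun h => absurd h hv⟩
  choose n hn using hn
  obtain ⟨w, hw⟩ := IsDedekindDomain.exists_forall_sub_mem_ideal (s := T)
    (fun v : HeightOneSpectrum O => v.asIdeal) n (fun v _ => v.prime)
    (fun v _ v' _ h => fun h' => h (HeightOneSpectrum.ext h')) (fun v => z v v.2)
  have hval : ∀ v (hv : v ∈ T), v.intValuation w = v.intValuation (z v hv) := by
    intro v hv
    have h1 := (v.intValuation_le_pow_iff_mem _ _).2 (hw v hv)
    have h2 := h1.trans_lt (hn v hv)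
    exact Valuation.map_eq_of_sub_lt _ h2
  have hgv : ∀ v ∈ T, v.valuation L (algebraMap O L w / algebraMap O L d) = v.valuation L (y v) := by
    intro v hv
    have e1 : v.valuation L (algebraMap O L w) = v.valuation L (algebraMap O L d * y v) := by
      rw [← hz' ⟨v, hv⟩, v.valuation_of_algebraMap, v.valuation_of_algebraMap]
      exact hval v hv
    rw [map_div₀, e1, map_mul, mul_div_cancel_left₀]
    exact (Valuation.ne_zero_iff _).2 hd0
  refine ⟨algebraMap O L w / algebraMap O L d, ?_, hgv⟩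
  intro h0
  obtain ⟨v, hv⟩ := hT
  have := hgv v hv
  rw [h0, map_zero] at this
  exact (Valuation.ne_zero_iff _).2 (hy v hv) this.symm

end WA

section primes

variable {k K L O : Type} [Field k] [Field K] [Algebra k[X] K] [IsFractionRing k[X] K]
  [Field L] [Algebra K L] [Algebra k[X] L] [IsScalarTower k[X] K L] [CommRing O]
  [IsDedekindDomain O] [Algebra O L] [IsFractionRing O L] [Algebra k[X] O]
  [IsScalarTower k[X] O L] [IsIntegralClosure O k[X] L]

include K in
theorem injL : Function.Injective (algebraMap k[X] L) := by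
  rw [IsScalarTower.algebraMap_eq k[X] K L]
  exact (algebraMap K L).injective.comp (IsFractionRing.injective k[X] K)

include K L in
theorem injO : Function.Injective (algebraMap k[X] O) := by
  have h := injL (k := k) (K := K) (L := L)
  rw [IsScalarTower.algebraMap_eq k[X] O L] at h
  exact Function.Injective.of_comp h

include K L in
theorem fin_over {P : k[X]} (hP : P ≠ 0) : {𝔓 : HeightOneSpectrum O | Ov P 𝔓}.Finite := by
  have h0 : algebraMap k[X] O P ≠ 0 := fun h =>
    hP (injO (K := K) (L := L) (by rw [h, map_zero]))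
  have h1 : Ideal.span {algebraMap k[X] O P} ≠ 0 := by
    rw [Ne, Ideal.zero_eq_bot, Ideal.span_singleton_eq_bot]
    exact h0
  refine (Ideal.finite_factors h1).subset fun 𝔓 h𝔓 => ?_
  change 𝔓.asIdeal ∣ _
  rw [Ideal.dvd_span_singleton]
  exact h𝔓

omit [IsFractionRing k[X] K] [Algebra k[X] K] [Field K] [Algebra K L] [IsScalarTower k[X] K L] [IsIntegralClosure O k[X] L] in
theorem val_lt {P : k[X]} (hP : Irreducible P) {𝔓 : HeightOneSpectrum O} (h : Ov P 𝔓) (f : k[X]) :
    𝔓.valuation L (algebraMap k[X] L f) < 1 ↔ P ∣ f := by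
  rw [IsScalarTower.algebraMap_apply k[X] O L, HeightOneSpectrum.valuation_lt_one_iff_mem]
  constructor
  · intro hf
    by_contra hn
    obtain ⟨u, w, huw⟩ := (hP.coprime_iff_not_dvd.2 hn)
    apply 𝔓.isPrime.ne_top
    rw [Ideal.eq_top_iff_one]
    have e : (1 : O) = algebraMap k[X] O u * algebraMap k[X] O P +
        algebraMap k[X] O w * algebraMap k[X] O f := by
      rw [← map_mul, ← map_mul, ← map_add, huw, map_one]
    rw [e]
    exact Ideal.add_mem _ (Ideal.mul_mem_left _ _ h) (Ideal.mul_mem_left _ _ hf)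
  · rintro ⟨g, rfl⟩
    rw [map_mul]
    exact Ideal.mul_mem_right _ _ h

omit [IsFractionRing k[X] K] [Algebra k[X] K] [Field K] [Algebra K L] [IsScalarTower k[X] K L] [IsIntegralClosure O k[X] L] in
theorem val_le (𝔓 : HeightOneSpectrum O) (f : k[X]) :
    𝔓.valuation L (algebraMap k[X] L f) ≤ 1 := by
  rw [IsScalarTower.algebraMap_apply k[X] O L]
  exact 𝔓.valuation_le_one _

omit [IsFractionRing k[X] K] [Algebra k[X] K] [Field K] [Algebra K L] [IsScalarTower k[X] K L] [IsIntegralClosure O k[X] L] in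
theorem val_eq {P : k[X]} (hP : Irreducible P) {𝔓 : HeightOneSpectrum O} (h : Ov P 𝔓) {f : k[X]}
    (hf : ¬ P ∣ f) : 𝔓.valuation L (algebraMap k[X] L f) = 1 :=
  le_antisymm (val_le 𝔓 f) (not_lt.1 fun h1 => hf ((val_lt hP h f).1 h1))

omit [IsFractionRing k[X] K] [Algebra k[X] K] [Field K] [Algebra K L] [IsScalarTower k[X] K L] in
theorem int_le (𝔓 : HeightOneSpectrum O) {x : L} (hx : IsIntegral k[X] x) : 𝔓.valuation L x ≤ 1 := by
  obtain ⟨y, rfl⟩ := (IsIntegralClosure.isIntegral_iff (A := O) (R := k[X]) (B := L)).1 hx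
  exact 𝔓.valuation_le_one y

include K in
theorem loc_int {P : k[X]} (hP : Irreducible P) (x : L)
    (hx : ∀ 𝔓 : HeightOneSpectrum O, Ov P 𝔓 → 𝔓.valuation L x ≤ 1) :
    ∃ s : k[X], ¬ P ∣ s ∧ IsIntegral k[X] (algebraMap k[X] L s * x) := by
  let J : Ideal O :=
    { carrier := {d | ∃ n : O, algebraMap O L d * x = algebraMap O L n}
      add_mem' := by
        rintro d e ⟨n, hn⟩ ⟨m, hm⟩
        exact ⟨n + m, by rw [map_add, map_add, add_mul, hn, hm]⟩
      zero_mem' := ⟨0, by rw [map_zero, zero_mul]⟩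
      smul_mem' := by
        rintro c d ⟨n, hn⟩
        exact ⟨c * n, by rw [smul_eq_mul, map_mul, map_mul, mul_assoc, hn]⟩ }
  have hprime : (Ideal.span {P} : Ideal k[X]).IsPrime :=
    (Ideal.span_singleton_prime hP.ne_zero).2 hP.prime
  haveI : Algebra.IsIntegral k[X] O := IsIntegralClosure.isIntegral_algebra k[X] L
  by_cases hJ : J.comap (algebraMap k[X] O) ≤ Ideal.span {P}
  · exfalso
    obtain ⟨𝔔, hJQ, hQp, hQc⟩ := Ideal.exists_ideal_over_prime_of_isIntegral (Ideal.span {P}) J hJ
    have hPQ : algebraMap k[X] O P ∈ 𝔔 := by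
      have : P ∈ 𝔔.comap (algebraMap k[X] O) := by
        rw [hQc]; exact Ideal.mem_span_singleton_self P
      exact this
    have hQ0 : 𝔔 ≠ ⊥ := by
      intro h
      rw [h, Ideal.mem_bot] at hPQ
      exact hP.ne_zero (injO (K := K) (L := L) (by rw [hPQ, map_zero]))
    let 𝔓 : HeightOneSpectrum O := ⟨𝔔, hQp, hQ0⟩
    obtain ⟨n, d, hd⟩ := 𝔓.exists_primeCompl_mul_eq_of_integer x (hx 𝔓 hPQ)
    exact d.2 (hJQ ⟨n, by rw [mul_comm]; exact hd⟩)
  · obtain ⟨s, hs, hsP⟩ := Set.not_subset.1 hJ
    refine ⟨s, fun h => hsP (Ideal.mem_span_singleton.2 h), ?_⟩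
    obtain ⟨n, hn⟩ := hs
    rw [IsScalarTower.algebraMap_apply k[X] O L, hn]
    exact (IsIntegralClosure.isIntegral_iff (A := O)).2 ⟨n, rfl⟩

end primes

end Pool.Agent.N765.PP
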