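import Pool.Agent.N765.PP.Base

/-!
Project PP (helper874), parts UNIM and RAM (helper765): the completion.
-/

set_option autoImplicit false
set_option linter.all false

open Polynomial IsDedekindDomain
open scoped Classical

namespace Pool.Agent.N765.PP

open Pool.Agent.N874.PP

section comp

variable {k K : Type} [Field k] [Field K] [Algebra k[X] K] [IsFractionRing k[X] K]
  (v : HeightOneSpectrum k[X])

theorem v_em (x : K) : Valued.v (algebraMap K (v.adicCompletion K) x) = v.valuation K x := by
  exact v.valuedAdicCompletion_eq_valuation' x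

theorem v_poly_le (f : k[X]) :
    Valued.v (algebraMap K (v.adicCompletion K) (algebraMap k[X] K f)) ≤ 1 := by
  rw [v_em]
  exact v.valuation_le_one f

variable {v}

theorem v_poly_lt {P : k[X]} (hv : v.asIdeal = Ideal.span {P}) (f : k[X]) :
    Valued.v (algebraMap K (v.adicCompletion K) (algebraMap k[X] K f)) < 1 ↔ P ∣ f := by
  rw [v_em, v.valuation_lt_one_iff_mem, hv, Ideal.mem_span_singleton]

theorem v_poly_eq {P : k[X]} (hv : v.asIdeal = Ideal.span {P}) {f : k[X]} (hf : ¬ P ∣ f) :
    Valued.v (algebraMap K (v.adicCompletion K) (algebraMap k[X] K f)) = 1 :=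
  le_antisymm (v_poly_le v f) (not_lt.1 fun h => hf ((v_poly_lt hv f).1 h))

variable (v) in
theorem approx (y : v.adicCompletion K) (hy : Valued.v y ≤ 1) :
    ∃ p : k[X], Valued.v (y - algebraMap K (v.adicCompletion K) (algebraMap k[X] K p)) < 1 := by
  have hopen : IsOpen {z : v.adicCompletion K | (Valued.v (R := v.adicCompletion K)).restrict
      (y - z) < 1} := by
    have h7 := Valued.isOpen_ball (v.adicCompletion K) (1 : MonoidWithZeroHom.ValueGroup₀
      (.ofClass (Valued.v (R := v.adicCompletion K))))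
    exact h7.preimage (f := fun z : v.adicCompletion K => y - z) (by fun_prop)
  obtain ⟨x, hx⟩ := (v.denseRange_algebraMap (K := K)).exists_mem_open hopen ⟨y, by
    change (Valued.v (R := v.adicCompletion K)).restrict (y - y) < 1
    rw [sub_self, map_zero]
    exact zero_lt_one⟩
  have hx' : Valued.v (y - algebraMap K (v.adicCompletion K) x) < 1 := by
    have h9 : (Valued.v (R := v.adicCompletion K)).restrict
      (y - algebraMap K (v.adicCompletion K) x) < 1 := hx
    rwa [Valuation.restrict_lt_one_iff] at h9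
  have hx1 : v.valuation K x ≤ 1 := by
    rw [← v_em]
    have e : algebraMap K (v.adicCompletion K) x =
      y - (y - algebraMap K (v.adicCompletion K) x) := by ring
    rw [e]
    exact (Valuation.map_sub _ _ _).trans (max_le hy hx'.le)
  obtain ⟨p, hp⟩ := v.exists_valuation_sub_lt_of_integer hx1 1
  refine ⟨p, ?_⟩
  have e : y - algebraMap K (v.adicCompletion K) (algebraMap k[X] K p) =
    (y - algebraMap K (v.adicCompletion K) x) -
      algebraMap K (v.adicCompletion K) (algebraMap k[X] K p - x) := by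
    rw [map_sub]; ring
  rw [e]
  refine (Valuation.map_sub _ _ _).trans_lt (max_lt hx' ?_)
  rw [v_em]
  simpa using hp

/-- A zero of a quadratic polynomial. -/
theorem lift_quad (h2 : Valued.v (2 : v.adicCompletion K) = 1) (A B c : v.adicCompletion K)
    (hA : Valued.v A ≤ 1) (hB : Valued.v B = 1) (hc : Valued.v c < 1) :
    ∃ t : v.adicCompletion K, Valued.v t < 1 ∧ A * t ^ 2 + 2 * B * t + c = 0 := by
  have hB0 : B ≠ 0 := by
    intro h; rw [h, map_zero] at hB; exact zero_ne_one hB
  obtain ⟨s, hs, hs1⟩ := Pool.Agent.TH115.GD.sqrt_one_unit h2 (1 - A * c / B ^ 2) (by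
    have e : 1 - A * c / B ^ 2 - 1 = -(A * c / B ^ 2) := by ring
    rw [e, Valuation.map_neg, map_div₀, map_pow, hB, one_pow, div_one, map_mul]
    exact mul_lt_one_of_nonneg_of_lt_one_right hA zero_le hc)
  have hs2 : Valued.v (1 + s) = 1 := by
    have e : 1 + s = 2 + (s - 1) := by ring
    rw [e, Valuation.map_add_eq_of_lt_left, h2]
    rw [h2]; exact hs1
  have hs0 : 1 + s ≠ 0 := by
    intro h; rw [h, map_zero] at hs2; exact zero_ne_one hs2
  refine ⟨-c / (B * (1 + s)), ?_, ?_⟩
  · rw [map_div₀, Valuation.map_neg, map_mul, hB, hs2, one_mul, div_one]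
    exact hc
  · have hs' : s ^ 2 * B ^ 2 = B ^ 2 - A * c := by
      rw [hs]; field_simp
    field_simp
    linear_combination c * hs'

/-- Scaling to a primitive vector. -/
theorem scale {n : ℕ} (y : Fin n → v.adicCompletion K) (hy : y ≠ 0) :
    ∃ c : v.adicCompletion K, c ≠ 0 ∧ (∀ i, Valued.v (c * y i) ≤ 1) ∧ ∃ i, Valued.v (c * y i) = 1 := by
  obtain ⟨i0, hi0⟩ := Function.ne_iff.1 hy
  haveI : Nonempty (Fin n) := ⟨i0⟩
  obtain ⟨i, hi⟩ := Finite.exists_max fun i => Valued.v (y i)
  have hi1 : y i ≠ 0 := by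
    intro h
    have := hi i0
    rw [h, map_zero, le_zero_iff, map_eq_zero] at this
    exact hi0 this
  refine ⟨(y i)⁻¹, inv_ne_zero hi1, fun j => ?_, i, ?_⟩
  · rw [map_mul, map_inv₀]
    have h0 : 0 < Valued.v (y i) := (Valuation.pos_iff _).2 hi1
    rw [inv_mul_le_iff₀ h0, mul_one]
    exact hi j
  · rw [inv_mul_cancel₀ hi1, map_one]

end comp

end Pool.Agent.N765.PP
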