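import Pool.Agent.N765.PP.Comp

/-!
Project PP (helper874), parts UNIM and RAM (helper765): coordinates and change of basis.
-/

set_option autoImplicit false
set_option linter.all false

open Polynomial IsDedekindDomain Matrix
open scoped Classical

namespace Pool.Agent.N765.PP

open Pool.Agent.N874.PP

section coords

variable {k K L : Type} [Field k] [Field K] [Algebra k[X] K] [Field L] [Algebra K L]
  [Algebra k[X] L] [IsScalarTower k[X] K L] {a b : k[X]} {θ : L}

theorem co_sum (h : IsCub K a b θ) (c : Fin 3 → K) (i : Fin 3) :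
    h.co i (algebraMap K L (c 0) + algebraMap K L (c 1) * θ + algebraMap K L (c 2) * θ ^ 2) =
      c i := by
  have e : algebraMap K L (c 0) + algebraMap K L (c 1) * θ + algebraMap K L (c 2) * θ ^ 2 =
      ∑ j, c j • h.basis j := by
    rw [Fin.sum_univ_three]
    simp only [h.basis_apply, Pool.Agent.N874.PP.vec, Algebra.smul_def]
    simp
  rw [e, IsCub.co, Module.Basis.coord_apply, Module.Basis.repr_sum_self]

theorem co_crd (h : IsCub K a b θ) {u : Fin 3 → k[X]} {x : L} (hx : Crd θ u x) (i : Fin 3) :
    h.co i x = algebraMap k[X] K (u i) := by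
  have hx' : x = algebraMap k[X] L (u 0) + algebraMap k[X] L (u 1) * θ +
    algebraMap k[X] L (u 2) * θ ^ 2 := hx
  have := co_sum h (fun j => algebraMap k[X] K (u j)) i
  rw [← this, hx', IsScalarTower.algebraMap_apply k[X] K L, IsScalarTower.algebraMap_apply k[X] K L,
    IsScalarTower.algebraMap_apply k[X] K L]

/-- The coordinates of a product. -/
noncomputable def mulc {R : Type} [CommRing R] (a b : R) (u v : Fin 3 → R) : Fin 3 → R :=
  ![u 0 * v 0 - b * (u 1 * v 2 + u 2 * v 1),
    u 0 * v 1 + u 1 * v 0 - a * (u 1 * v 2 + u 2 * v 1) - b * (u 2 * v 2),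
    u 0 * v 2 + u 1 * v 1 + u 2 * v 0 - a * (u 2 * v 2)]

theorem crd_mul (h : IsCub K a b θ) {u w : Fin 3 → k[X]} {x y : L} (hx : Crd θ u x)
    (hy : Crd θ w y) : Crd θ (mulc a b u w) (x * y) := by
  have hx' : x = algebraMap k[X] L (u 0) + algebraMap k[X] L (u 1) * θ +
    algebraMap k[X] L (u 2) * θ ^ 2 := hx
  have hy' : y = algebraMap k[X] L (w 0) + algebraMap k[X] L (w 1) * θ +
    algebraMap k[X] L (w 2) * θ ^ 2 := hy
  have hr := h.root
  change x * y = _
  simp only [mulc, Matrix.cons_val_zero, Matrix.cons_val_one, Matrix.cons_val_two, Matrix.head_cons,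
    Matrix.tail_cons, map_sub, map_add, map_mul, Matrix.cons_val]
  rw [hx', hy']
  linear_combination (algebraMap k[X] L (u 1) * algebraMap k[X] L (w 2) +
    algebraMap k[X] L (u 2) * algebraMap k[X] L (w 1) +
    algebraMap k[X] L (u 2) * algebraMap k[X] L (w 2) * θ) * hr

theorem crd_theta : Crd θ (![0, 1, 0] : Fin 3 → k[X]) θ := by
  change θ = _
  simp

theorem crd_poly (f : k[X]) : Crd θ (![f, 0, 0] : Fin 3 → k[X]) (algebraMap k[X] L f) := by
  change algebraMap k[X] L f = _
  simp

theorem theta_int (h : IsCub K a b θ) : IsIntegral k[X] θ := by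
  refine ⟨X ^ 3 + C a * X + C b, ?_, ?_⟩
  · have e : (X ^ 3 + C a * X + C b : k[X][X]) = X ^ 3 + (C a * X + C b) := by ring
    rw [e]
    exact monic_X_pow_add (by compute_degree!)
  · rw [eval₂_add, eval₂_add, eval₂_pow, eval₂_mul, eval₂_X, eval₂_C, eval₂_C]
    exact h.root

theorem crd_int (h : IsCub K a b θ) {u : Fin 3 → k[X]} {x : L} (hx : Crd θ u x) :
    IsIntegral k[X] x := by
  have hx' : x = algebraMap k[X] L (u 0) + algebraMap k[X] L (u 1) * θ +
    algebraMap k[X] L (u 2) * θ ^ 2 := hx
  have ht := theta_int h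
  rw [hx']
  exact ((isIntegral_algebraMap).add (isIntegral_algebraMap.mul ht)).add
    (isIntegral_algebraMap.mul (ht.pow 2))

variable [IsFractionRing k[X] K]

theorem crd_uniq (h : IsCub K a b θ) {u w : Fin 3 → k[X]} {x : L} (hx : Crd θ u x)
    (hy : Crd θ w x) : u = w := by
  funext i
  apply IsFractionRing.injective k[X] K
  rw [← co_crd h hx i, ← co_crd h hy i]

/-! ### Change of basis -/

/-- Isotropy with respect to a family. -/
def IsoF (h : IsCub K a b θ) (v : HeightOneSpectrum k[X]) (α : L) (f : Fin 3 → L) : Prop :=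
  ∃ y : Fin 3 → v.adicCompletion K, y ≠ 0 ∧
    ∑ i : Fin 3, ∑ j : Fin 3, algebraMap K (v.adicCompletion K)
      (h.co 2 (f i * f j / α)) * y i * y j = 0

theorem iso_change (h : IsCub K a b θ) (v : HeightOneSpectrum k[X]) (α : L) {f g : Fin 3 → L}
    (hf : LinearIndependent K f) (hg : LinearIndependent K g) (H : IsoF h v α f) :
    IsoF h v α g := by
  have hrank : Fintype.card (Fin 3) = Module.finrank K L := by rw [h.rank]; rfl
  let bf := basisOfLinearIndependentOfCardEqFinrank hf hrank
  let bg := basisOfLinearIndependentOfCardEqFinrank hg hrank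
  have hbf : ∀ i, bf i = f i := fun i => by
    simp only [bf, coe_basisOfLinearIndependentOfCardEqFinrank]
  have hbg : ∀ i, bg i = g i := fun i => by
    simp only [bg, coe_basisOfLinearIndependentOfCardEqFinrank]
  let M : Matrix (Fin 3) (Fin 3) K := fun i j => bg.repr (f i) j
  let N : Matrix (Fin 3) (Fin 3) K := fun i j => bf.repr (g i) j
  have hM : ∀ i, f i = ∑ j, M i j • g j := fun i => by
    have := bg.sum_repr (f i)
    simp only [hbg] at this
    exact this.symm
  have hN : ∀ i, g i = ∑ j, N i j • f j := fun i => by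
    have := bf.sum_repr (g i)
    simp only [hbf] at this
    exact this.symm
  have hMN : M * N = 1 := by
    ext i l
    have e1 : f i = ∑ l, (M * N) i l • f l := by
      rw [hM i]
      simp_rw [Matrix.mul_apply, Finset.sum_smul]
      rw [Finset.sum_comm]
      refine Finset.sum_congr rfl fun j _ => ?_
      conv_lhs => rw [hN j]
      rw [Finset.smul_sum]
      refine Finset.sum_congr rfl fun l _ => ?_
      rw [smul_smul]
    have e2 : bf.repr (f i) l = (M * N) i l := by
      conv_lhs => rw [e1]
      simp_rw [← hbf]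
      rw [bf.repr_sum_self]
    rw [← e2, ← hbf i, bf.repr_self, Matrix.one_apply, Finsupp.single_apply]
  obtain ⟨y, hy, hy0⟩ := H
  let φ := algebraMap K (v.adicCompletion K)
  let M' := M.map φ
  let N' := N.map φ
  have hMN' : M' * N' = 1 := by
    have := congrArg (fun A : Matrix (Fin 3) (Fin 3) K => A.map φ) hMN
    simp only [Matrix.map_mul] at this
    rw [this]
    exact Matrix.map_one φ (map_zero φ) (map_one φ)
  refine ⟨y ᵥ* M', ?_, ?_⟩
  · intro h0
    apply hy
    have : (y ᵥ* M') ᵥ* N' = y := by rw [Matrix.vecMul_vecMul, hMN', Matrix.vecMul_one]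
    rw [← this, h0, Matrix.zero_vecMul]
  · have hG : ∀ i j, h.co 2 (f i * f j / α) =
        ∑ k, ∑ l, M i k * M j l * h.co 2 (g k * g l / α) := by
      intro i j
      have e : f i * f j / α = ∑ k, ∑ l, (M i k * M j l) • (g k * g l / α) := by
        conv_lhs => rw [hM i, hM j]
        rw [Finset.sum_mul_sum, Finset.sum_div]
        refine Finset.sum_congr rfl fun k _ => ?_
        rw [Finset.sum_div]
        refine Finset.sum_congr rfl fun l _ => ?_
        rw [smul_mul_smul_comm, smul_div_assoc]
      rw [e, map_sum]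
      refine Finset.sum_congr rfl fun k _ => ?_
      rw [map_sum]
      refine Finset.sum_congr rfl fun l _ => ?_
      rw [map_smul, smul_eq_mul]
    have hx : ∀ j, (y ᵥ* M') j = ∑ i, y i * φ (M i j) := fun j => rfl
    rw [← hy0]
    simp only [hx, hG, map_sum, map_mul]
    simp only [Fin.sum_univ_three]
    change _ = _
    ring

end coords

end Pool.Agent.N765.PP
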