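import Pool.Agent.N765.PP.Crdn

/-!
Project PP (helper874), parts UNIM and RAM (helper765): ternary forms, lifting of zeros.
-/

set_option autoImplicit false
set_option linter.all false

open Polynomial IsDedekindDomain Matrix
open scoped Classical

namespace Pool.Agent.N765.PP

open Pool.Agent.N874.PP

section fin

variable {F : Type} [Field F] [Finite F]

theorem chev (G : Fin 3 → Fin 3 → F) : ∃ x : Fin 3 → F, x ≠ 0 ∧ ∑ i, ∑ j, G i j * x i * x j = 0 := by
  letI : Fintype F := Fintype.ofFinite F
  obtain ⟨p, hp⟩ := CharP.exists F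
  have hprime : p.Prime := CharP.char_is_prime F p
  let f : MvPolynomial (Fin 3) F := ∑ i, ∑ j, MvPolynomial.C (G i j) * MvPolynomial.X i *
    MvPolynomial.X j
  have hdeg : f.totalDegree < Fintype.card (Fin 3) := by
    have h1 : f.totalDegree ≤ 2 := by
      refine (MvPolynomial.totalDegree_finset_sum _ _).trans (Finset.sup_le fun i _ => ?_)
      refine (MvPolynomial.totalDegree_finset_sum _ _).trans (Finset.sup_le fun j _ => ?_)
      refine (MvPolynomial.totalDegree_mul _ _).trans ?_
      have h2 := MvPolynomial.totalDegree_mul (MvPolynomial.C (G i j)) (MvPolynomial.X i)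
      rw [MvPolynomial.totalDegree_C, MvPolynomial.totalDegree_X] at h2
      rw [MvPolynomial.totalDegree_X]
      omega
    rw [Fintype.card_fin]
    omega
  have hcard := char_dvd_card_solutions p hdeg
  have hev : ∀ x : Fin 3 → F, MvPolynomial.eval x f = ∑ i, ∑ j, G i j * x i * x j := by
    intro x
    simp only [f, map_sum, map_mul, MvPolynomial.eval_C, MvPolynomial.eval_X]
  by_contra hcon
  push Not at hcon
  have h1 : Fintype.card {x : Fin 3 → F // MvPolynomial.eval x f = 0} = 1 := by
    rw [Fintype.card_eq_one_iff]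
    refine ⟨⟨0, by rw [hev]; simp⟩, ?_⟩
    rintro ⟨x, hx⟩
    by_contra hne
    have hx0 : x ≠ 0 := fun h => hne (Subtype.ext h)
    exact hcon x hx0 (by rw [← hev]; exact hx)
  rw [h1] at hcard
  exact hprime.one_lt.ne' (Nat.dvd_one.1 hcard)

end fin

section res

variable {k : Type} [Field k] [Finite k]

theorem fin_res {P : k[X]} (hP : P ≠ 0) : Finite (AdjoinRoot P) := by
  have : Module.Finite k (AdjoinRoot P) := .of_basis (AdjoinRoot.powerBasis hP).basis
  exact Module.finite_of_finite k

end res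

section lift

variable {k K : Type} [Field k] [Field K] [Algebra k[X] K] [IsFractionRing k[X] K]
  {v : HeightOneSpectrum k[X]}

/-- The ternary form with matrix `G` has a zero over the completion. -/
def Iso3 (K : Type) [Field K] [Algebra k[X] K] [IsFractionRing k[X] K] (v : HeightOneSpectrum k[X])
    (G : Fin 3 → Fin 3 → k[X]) : Prop :=
  ∃ y : Fin 3 → v.adicCompletion K, y ≠ 0 ∧
    ∑ i : Fin 3, ∑ j : Fin 3, algebraMap K (v.adicCompletion K)
      (algebraMap k[X] K (G i j)) * y i * y j = 0

theorem v_two {P : k[X]} (hP : Irreducible P) (hv : v.asIdeal = Ideal.span {P}) (h2 : (2 : k) ≠ 0) :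
    Valued.v (2 : v.adicCompletion K) = 1 := by
  have e : (2 : v.adicCompletion K) = algebraMap K (v.adicCompletion K)
      (algebraMap k[X] K (C 2)) := by
    rw [map_ofNat, map_ofNat, map_ofNat]
  rw [e]
  refine v_poly_eq hv fun h => ?_
  exact hP.not_isUnit (isUnit_of_dvd_unit h (isUnit_C.2 (isUnit_iff_ne_zero.2 h2)))

theorem lift_form {P : k[X]} (hP : Irreducible P) (hv : v.asIdeal = Ideal.span {P})
    (h2 : (2 : k) ≠ 0) (G : Fin 3 → Fin 3 → k[X]) (hG : ∀ i j, G i j = G j i) (p : Fin 3 → k[X])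
    (hp : ∃ j, ¬ P ∣ p j) (hq : P ∣ ∑ i, ∑ j, G i j * p i * p j) (i0 : Fin 3)
    (hi : ¬ P ∣ ∑ j, G i0 j * p j) : Iso3 K v G := by
  set φ : k[X] →+* v.adicCompletion K := (algebraMap K (v.adicCompletion K)).comp
    (algebraMap k[X] K) with hφ
  have hφ' : ∀ f, φ f = algebraMap K (v.adicCompletion K) (algebraMap k[X] K f) := fun _ => rfl
  obtain ⟨t, ht, htq⟩ := lift_quad (v_two hP hv h2) (φ (G i0 i0)) (φ (∑ j, G i0 j * p j))
    (φ (∑ i, ∑ j, G i j * p i * p j)) (v_poly_le v _) (v_poly_eq hv hi) ((v_poly_lt hv _).2 hq)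
  refine ⟨fun i => φ (p i) + if i = i0 then t else 0, ?_, ?_⟩
  · obtain ⟨j, hj⟩ := hp
    intro h0
    have h1 := congrFun h0 j
    have h2 : Valued.v (φ (p j)) = 1 := v_poly_eq hv hj
    have h3 : φ (p j) = -(if j = i0 then t else 0) := by
      simp only [Pi.zero_apply] at h1
      linear_combination h1
    rw [h3, Valuation.map_neg] at h2
    split_ifs at h2
    · exact ht.ne h2
    · rw [map_zero] at h2; exact zero_ne_one h2
  · simp only [← hφ']
    have h01 := hG 0 1
    have h02 := hG 0 2
    have h12 := hG 1 2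
    simp only [Fin.sum_univ_three, map_add, map_mul] at htq ⊢
    fin_cases i0
    · simp only [Fin.zero_eta, Fin.isValue, if_true, one_ne_zero, if_false, add_zero,
        Fin.reduceEq, ← h01, ← h02, ← h12] at htq ⊢
      linear_combination htq
    · simp only [Fin.mk_one, Fin.isValue, if_true, one_ne_zero, if_false, add_zero,
        Fin.reduceEq, zero_ne_one, ← h01, ← h02, ← h12] at htq ⊢
      linear_combination htq
    · simp only [Fin.reduceFinMk, Fin.isValue, if_true, one_ne_zero, if_false, add_zero,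
        Fin.reduceEq, ← h01, ← h02, ← h12] at htq ⊢
      linear_combination htq

/-- A ternary form with unit determinant has a zero. -/
theorem iso_unim [Finite k] {P : k[X]} (hP : Irreducible P) (hv : v.asIdeal = Ideal.span {P})
    (h2 : (2 : k) ≠ 0) (G : Fin 3 → Fin 3 → k[X]) (hG : ∀ i j, G i j = G j i)
    (hdet : ¬ P ∣ (Matrix.of G).det) : Iso3 K v G := by
  haveI : Fact (Irreducible P) := ⟨hP⟩
  haveI : Finite (AdjoinRoot P) := fin_res hP.ne_zero
  obtain ⟨x, hx, hx0⟩ := chev fun i j => AdjoinRoot.mk P (G i j)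
  choose p hp using fun i => AdjoinRoot.mk_surjective (g := P) (x i)
  have hex : ∃ i0, ¬ P ∣ ∑ j, G i0 j * p j := by
    by_contra hcon
    push Not at hcon
    apply hx
    refine Matrix.eq_zero_of_mulVec_eq_zero (M := (Matrix.of G).map (AdjoinRoot.mk P)) ?_ ?_
    · rw [← RingHom.mapMatrix_apply, ← RingHom.map_det]
      intro h
      exact hdet (AdjoinRoot.mk_eq_zero.1 h)
    · funext i
      have := AdjoinRoot.mk_eq_zero.2 (hcon i)
      rw [map_sum] at this
      simp only [map_mul, hp] at this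
      exact this
  obtain ⟨i0, hi0⟩ := hex
  refine lift_form hP hv h2 G hG p ?_ ?_ i0 hi0
  · by_contra hcon
    push Not at hcon
    apply hx
    funext i
    rw [← hp i, AdjoinRoot.mk_eq_zero.2 (hcon i)]
    rfl
  · rw [← AdjoinRoot.mk_eq_zero, map_sum]
    simp only [map_sum, map_mul, hp]
    exact hx0

variable {L : Type} [Field L] [Algebra K L]
  [Algebra k[X] L] [IsScalarTower k[X] K L] {a b : k[X]} {θ : L}

theorem isoF_iff (h : IsCub K a b θ) (v : HeightOneSpectrum k[X]) (α : L) (f : Fin 3 → L)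
    (G : Fin 3 → Fin 3 → k[X]) (c : K) (hc : c ≠ 0)
    (hG : ∀ i j, h.co 2 (f i * f j / α) * c = algebraMap k[X] K (G i j)) :
    IsoF h v α f ↔ Iso3 K v G := by
  have hc' : algebraMap K (v.adicCompletion K) c ≠ 0 := by
    intro h0
    exact hc ((algebraMap K (v.adicCompletion K)).injective (by rw [h0, map_zero]))
  have e : ∀ y : Fin 3 → v.adicCompletion K, ∑ i : Fin 3, ∑ j : Fin 3,
      algebraMap K (v.adicCompletion K) (algebraMap k[X] K (G i j)) * y i * y j =
      algebraMap K (v.adicCompletion K) c * ∑ i : Fin 3, ∑ j : Fin 3,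
      algebraMap K (v.adicCompletion K) (h.co 2 (f i * f j / α)) * y i * y j := by
    intro y
    rw [Finset.mul_sum]
    refine Finset.sum_congr rfl fun i _ => ?_
    rw [Finset.mul_sum]
    refine Finset.sum_congr rfl fun j _ => ?_
    rw [← hG, map_mul]
    ring
  constructor
  · rintro ⟨y, hy, hy0⟩
    exact ⟨y, hy, by rw [e, hy0, mul_zero]⟩
  · rintro ⟨y, hy, hy0⟩
    refine ⟨y, hy, ?_⟩
    rw [e] at hy0
    exact (mul_eq_zero.1 hy0).resolve_left hc'

end lift

end Pool.Agent.N765.PP
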