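import Pool.Agent.N765.PP.Form

/-!
Project PP (helper874), part UNIM (helper765).
-/

set_option autoImplicit false
set_option linter.all false

open Polynomial IsDedekindDomain Matrix
open scoped Classical

namespace Pool.Agent.N765.PP

open Pool.Agent.N874.PP

section hk

/-- The coordinates of `θ ^ i`. -/
noncomputable def ee (R : Type) [CommRing R] : Fin 3 → Fin 3 → R :=
  ![![1, 0, 0], ![0, 1, 0], ![0, 0, 1]]

/-- The matrix of `c₂ (d x y)`. -/
noncomputable def hk {R : Type} [CommRing R] (a b : R) (d : Fin 3 → R) (i j : Fin 3) : R :=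
  mulc a b d (mulc a b (ee R i) (ee R j)) 2

variable {R : Type} [CommRing R]

theorem hk_symm (a b : R) (d : Fin 3 → R) (i j : Fin 3) : hk a b d i j = hk a b d j i := by
  simp only [hk, mulc, Matrix.cons_val_zero, Matrix.cons_val_one, Matrix.cons_val]
  ring

theorem hk_00 (a b : R) (d : Fin 3 → R) : hk a b d 0 0 = d 2 := by
  simp [hk, mulc, ee]

theorem hk_01 (a b : R) (d : Fin 3 → R) : hk a b d 0 1 = d 1 := by
  simp [hk, mulc, ee]

theorem hk_02 (a b : R) (d : Fin 3 → R) : hk a b d 0 2 = d 0 - a * d 2 := by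
  simp [hk, mulc, ee]

theorem hk_11 (a b : R) (d : Fin 3 → R) : hk a b d 1 1 = d 0 - a * d 2 := by
  simp [hk, mulc, ee]

theorem hk_12 (a b : R) (d : Fin 3 → R) : hk a b d 1 2 = - a * d 1 - b * d 2 := by
  simp [hk, mulc, ee]; ring

theorem hk_22 (a b : R) (d : Fin 3 → R) : hk a b d 2 2 = - a * d 0 + a ^ 2 * d 2 - b * d 1 := by
  simp [hk, mulc, ee]; ring

theorem hk_det (a b : R) (d : Fin 3 → R) : (Matrix.of (hk a b d)).det =
    d 2 * ((d 0 - a * d 2) * (- a * d 0 + a ^ 2 * d 2 - b * d 1) - (- a * d 1 - b * d 2) ^ 2) -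
    d 1 * (d 1 * (- a * d 0 + a ^ 2 * d 2 - b * d 1) - (- a * d 1 - b * d 2) * (d 0 - a * d 2)) +
    (d 0 - a * d 2) * (d 1 * (- a * d 1 - b * d 2) - (d 0 - a * d 2) ^ 2) := by
  rw [Matrix.det_fin_three]
  simp only [Matrix.of_apply]
  rw [hk_symm a b d 1 0, hk_symm a b d 2 0, hk_symm a b d 2 1, hk_00, hk_01, hk_02, hk_11, hk_12,
    hk_22]
  ring

theorem hk_det_mul (a b : R) (d e : Fin 3 → R) : (Matrix.of (hk a b d)).det *
    (Matrix.of (hk a b e)).det = - (Matrix.of (hk a b (mulc a b d e))).det := by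
  rw [hk_det, hk_det, hk_det]
  simp only [mulc, Matrix.cons_val_zero, Matrix.cons_val_one, Matrix.cons_val]
  ring

theorem hk_det_poly (a b s : R) : (Matrix.of (hk a b ![s, 0, 0])).det = - s ^ 3 := by
  rw [hk_det]
  simp only [Matrix.cons_val_zero, Matrix.cons_val_one, Matrix.cons_val]
  ring

end hk

section

variable {k K L O : Type} [Field k] [Field K] [Algebra k[X] K] [IsFractionRing k[X] K]
  [Field L] [Algebra K L] [Algebra k[X] L] [IsScalarTower k[X] K L] {a b : k[X]} {θ : L}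

theorem ee_crd (i : Fin 3) : Crd θ (ee k[X] i) (θ ^ (i : ℕ)) := by
  change θ ^ (i : ℕ) = _
  fin_cases i <;> simp [ee]

/-- The form in the basis `g θ ^ i`. -/
theorem gram (h : IsCub K a b θ) {g α : L} {d : Fin 3 → k[X]} (hd : Crd θ d (g ^ 2 / α))
    (i j : Fin 3) : h.co 2 ((g * θ ^ (i : ℕ)) * (g * θ ^ (j : ℕ)) / α) =
      algebraMap k[X] K (hk a b d i j) := by
  have e : (g * θ ^ (i : ℕ)) * (g * θ ^ (j : ℕ)) / α =
      (g ^ 2 / α) * (θ ^ (i : ℕ) * θ ^ (j : ℕ)) := by ring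
  rw [e, co_crd h (crd_mul h hd (crd_mul h (ee_crd i) (ee_crd j))) 2]
  rfl

theorem li_pow (h : IsCub K a b θ) : LinearIndependent K fun i : Fin 3 => θ ^ (i : ℕ) := by
  have h1 := h.basis.linearIndependent
  have e : (h.basis : Fin 3 → L) = fun i : Fin 3 => θ ^ (i : ℕ) := by
    funext i
    rw [h.basis_apply]
    fin_cases i <;> simp [Pool.Agent.N874.PP.vec]
  rwa [e] at h1

theorem li_mul {f : Fin 3 → L} (hf : LinearIndependent K f) {g : L} (hg : g ≠ 0) :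
    LinearIndependent K fun i => g * f i := by
  rw [Fintype.linearIndependent_iff] at hf ⊢
  intro c hc
  refine hf c ?_
  have e : g * ∑ i, c i • f i = 0 := by
    rw [← hc, Finset.mul_sum]
    exact Finset.sum_congr rfl fun i _ => by rw [mul_smul_comm]
  exact (mul_eq_zero.1 e).resolve_left hg

end

/-- Even valuations: the form is isotropic. -/
theorem unim (h0 : S_INT) : S_UNIM := by
  intro k K L O _ _ _ _ _ _ _ _ _ _ _ _ _ _ _ _ a b θ h6 h hsq P v hP hv α hα hev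
  have h2 : (2 : k) ≠ 0 := by
    intro h
    apply h6
    have e : (6 : k) = 2 * 3 := by norm_num
    rw [e, h, zero_mul]
  have hINT := h0 k K L a b θ h6 h hsq
  have hfin := fin_over (K := K) (L := L) (O := O) hP.ne_zero
  have hev' : ∀ 𝔓 : HeightOneSpectrum O, ∃ y : L, Ov P 𝔓 → y ≠ 0 ∧
      𝔓.valuation L α = 𝔓.valuation L y ^ 2 := by
    intro 𝔓
    by_cases h𝔓 : Ov P 𝔓
    · obtain ⟨y, hy⟩ := hev 𝔓 h𝔓
      refine ⟨y, fun _ => ⟨?_, hy⟩⟩
      rintro rfl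
      rw [map_zero, zero_pow two_ne_zero, map_eq_zero] at hy
      exact hα hy
    · exact ⟨0, fun h => absurd h h𝔓⟩
  choose y hy using hev'
  obtain ⟨g0, hg0, hgv⟩ := weak (L := L) hfin.toFinset y (fun 𝔓 h𝔓 =>
    (hy 𝔓 (by simpa using h𝔓)).1)
  have hgv' : ∀ 𝔓 : HeightOneSpectrum O, Ov P 𝔓 → 𝔓.valuation L (g0 ^ 2 / α) = 1 := by
    intro 𝔓 h𝔓
    rw [map_div₀, map_pow, hgv 𝔓 (by simpa using h𝔓), (hy 𝔓 h𝔓).2, div_self]
    exact pow_ne_zero _ ((Valuation.ne_zero_iff _).2 (hy 𝔓 h𝔓).1)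
  obtain ⟨s, hs, hsi⟩ := loc_int (K := K) hP (g0 ^ 2 / α) fun 𝔓 h𝔓 => (hgv' 𝔓 h𝔓).le
  have hs0 : algebraMap k[X] L s ≠ 0 := by
    intro h
    apply hs
    have : s = 0 := injL (K := K) (L := L) (by rw [h, map_zero])
    rw [this]; exact dvd_zero P
  set g : L := algebraMap k[X] L s * g0 with hg
  have hgne : g ≠ 0 := mul_ne_zero hs0 hg0
  have hgi : IsIntegral k[X] (g ^ 2 / α) := by
    have e : g ^ 2 / α = algebraMap k[X] L s * (algebraMap k[X] L s * (g0 ^ 2 / α)) := by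
      rw [hg]; ring
    rw [e]
    exact isIntegral_algebraMap.mul hsi
  have hδ0 : g ^ 2 / α ≠ 0 := div_ne_zero (pow_ne_zero _ hgne) hα
  have hδv : ∀ 𝔓 : HeightOneSpectrum O, Ov P 𝔓 → 𝔓.valuation L (g ^ 2 / α) = 1 := by
    intro 𝔓 h𝔓
    have e : g ^ 2 / α = algebraMap k[X] L s ^ 2 * (g0 ^ 2 / α) := by
      rw [hg]; ring
    rw [e, map_mul, map_pow, val_eq hP h𝔓 hs, hgv' 𝔓 h𝔓, one_pow, one_mul]
  obtain ⟨d, hd⟩ := (hINT _).1 hgi
  obtain ⟨s', hs', hsi'⟩ := loc_int (K := K) hP (g ^ 2 / α)⁻¹ fun 𝔓 h𝔓 => by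
    rw [map_inv₀, hδv 𝔓 h𝔓, inv_one]
  obtain ⟨e, he⟩ := (hINT _).1 hsi'
  have hprod : mulc a b d e = ![s', 0, 0] := by
    refine crd_uniq h (crd_mul h hd he) ?_
    have e1 : g ^ 2 / α * (algebraMap k[X] L s' * (g ^ 2 / α)⁻¹) = algebraMap k[X] L s' := by
      rw [mul_comm (algebraMap k[X] L s'), ← mul_assoc, mul_inv_cancel₀ hδ0, one_mul]
    rw [e1]
    exact crd_poly s'
  have hdet : ¬ P ∣ (Matrix.of (hk a b d)).det := by
    intro hdvd
    have h3 := hk_det_mul a b d e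
    rw [hprod, hk_det_poly, neg_neg] at h3
    have h4 : P ∣ s' ^ 3 := by
      rw [← h3]; exact Dvd.dvd.mul_right hdvd _
    exact hs' (hP.prime.dvd_of_dvd_pow h4)
  have hiso := iso_unim (K := K) hP hv h2 (hk a b d) (hk_symm a b d) hdet
  have hF : IsoF h v α fun i : Fin 3 => g * θ ^ (i : ℕ) := by
    rw [isoF_iff h v α _ (hk a b d) 1 one_ne_zero fun i j => by rw [mul_one, gram h hd]]
    exact hiso
  exact iso_change h v α (li_mul (li_pow h) hgne) (li_pow h) hF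

end Pool.Agent.N765.PP
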